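import Mathlib
import Pool.Agent.Helper26.CSets

/-!
# A coanalytic set is a union of `ℵ₁` Borel sets

Constituents by the rank of the tree of a Suslin scheme.
-/

set_option autoImplicit false

open Set Ordinal Cardinal MeasureTheory Pool.Agent.Helper26.CSets

open scoped Ordinal Cardinal

namespace Pool.Agent.Helper26.GP

/-- points whose tree has rank at most `a` at the node `s` -/
def lev {X : Type*} (F : List ℕ → Set X) (a : Ordinal.{0}) (s : List ℕ) : Set X :=
  {x | x ∉ F s ∨ ∀ n, ∃ b, ∃ _ : b < a, x ∈ lev F b (s ++ [n])}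
termination_by a

variable {X : Type*}

theorem mem_lev {F : List ℕ → Set X} {a : Ordinal.{0}} {s : List ℕ} {x : X} :
    x ∈ lev F a s ↔ x ∉ F s ∨ ∀ n, ∃ b < a, x ∈ lev F b (s ++ [n]) := by
  conv_lhs => rw [lev]
  simp

theorem countable_Iio {a : Ordinal.{0}} (ha : a < ω₁) : (Iio a).Countable := by
  rw [← Cardinal.le_aleph0_iff_set_countable, Cardinal.mk_Iio_ordinal, Cardinal.lift_le_aleph0,
    ← Cardinal.lt_aleph_one_iff, ← Cardinal.lt_ord, Cardinal.ord_aleph]
  exact ha

theorem lev_measurable [MeasurableSpace X] {F : List ℕ → Set X}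
    (hF : ∀ s, MeasurableSet (F s)) (a : Ordinal.{0}) (ha : a < ω₁) :
    ∀ s, MeasurableSet (lev F a s) := by
  induction a using WellFoundedLT.induction with
  | ind a ih =>
    intro s
    have h1 : lev F a s = (F s)ᶜ ∪ ⋂ n : ℕ, ⋃ b ∈ Iio a, lev F b (s ++ [n]) := by
      ext x
      rw [mem_lev]
      simp
    rw [h1]
    exact (hF s).compl.union (MeasurableSet.iInter fun n =>
      MeasurableSet.biUnion (countable_Iio ha) fun b hb => ih b hb (hb.trans ha) _)

theorem lev_mono {F : List ℕ → Set X} {a b : Ordinal.{0}} (hab : a ≤ b) (s : List ℕ) :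
    lev F a s ⊆ lev F b s := by
  intro x hx
  rw [mem_lev] at hx ⊢
  refine hx.imp_right fun h n => ?_
  obtain ⟨c, hc, h1⟩ := h n
  exact ⟨c, hc.trans_le hab, h1⟩

/-- a point of a level is not in the Suslin set -/
theorem not_branch_of_lev {F : List ℕ → Set X} {x : X} {g : ℕ → ℕ}
    (hg : ∀ n, x ∈ F ((List.range n).map g)) (a : Ordinal.{0}) :
    ∀ n, x ∉ lev F a ((List.range n).map g) := by
  induction a using WellFoundedLT.induction with
  | ind a ih =>
    intro n h
    rw [mem_lev] at h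
    rcases h with h | h
    · exact h (hg n)
    · obtain ⟨b, hb, h1⟩ := h (g n)
      refine ih b hb (n + 1) ?_
      rwa [List.range_succ, List.map_append]

/-- a point outside of all countable levels is in the Suslin set -/
theorem branch_of_not_lev {F : List ℕ → Set X} {x : X}
    (h : ∀ a < ω₁, x ∉ lev F a []) : x ∈ suslin F := by
  have hstep : ∀ s : List ℕ, (∀ a < ω₁, x ∉ lev F a s) →
      ∃ n, ∀ a < ω₁, x ∉ lev F a (s ++ [n]) := by
    intro s hs
    by_contra hcon
    push Not at hcon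
    choose a ha hx using hcon
    have h1 : ⨆ n, (a n + 1) < ω₁ := Ordinal.iSup_lt_omega_one fun n =>
      (Cardinal.isSuccLimit_omega 1).add_one_lt (ha n)
    refine hs _ h1 ?_
    rw [mem_lev]
    refine Or.inr fun n => ⟨a n, ?_, hx n⟩
    exact lt_of_lt_of_le (Order.lt_add_one_iff.2 le_rfl) (Ordinal.le_iSup (fun n => a n + 1) n)
  choose! nx hnx using hstep
  let st : ℕ → List ℕ := fun k => Nat.rec [] (fun _ s => s ++ [nx s]) k
  have hst : ∀ k, ∀ a < ω₁, x ∉ lev F a (st k) := by
    intro k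
    induction k with
    | zero => exact h
    | succ k ih => exact hnx _ ih
  have hst2 : ∀ k, st k = (List.range k).map (fun j => nx (st j)) := by
    intro k
    induction k with
    | zero => rfl
    | succ k ih =>
      rw [List.range_succ, List.map_append, ← ih]
      rfl
  refine ⟨fun j => nx (st j), fun k => ?_⟩
  rw [← hst2]
  have h2 := hst k 0 (Ordinal.omega_pos 1)
  rw [mem_lev, not_or, not_not] at h2
  exact h2.1

theorem compl_suslin (F : List ℕ → Set X) : (suslin F)ᶜ = ⋃ a ∈ Iio ω₁, lev F a [] := by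
  ext x
  simp only [mem_compl_iff, mem_iUnion, mem_Iio, exists_prop]
  constructor
  · intro h
    by_contra hcon
    push Not at hcon
    exact h (branch_of_not_lev hcon)
  · rintro ⟨a, -, ha⟩ ⟨g, hg⟩
    exact not_branch_of_lev hg a 0 ha

/-- a coanalytic set is the union of an increasing family of `ℵ₁` Borel sets -/
theorem coanalytic_iUnion [TopologicalSpace X] [T3Space X] [MeasurableSpace X] [BorelSpace X]
    {A : Set X} (hA : AnalyticSet Aᶜ) :
    ∃ B : Ordinal.{0} → Set X, (∀ a < ω₁, MeasurableSet (B a)) ∧ Monotone B ∧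
      A = ⋃ a ∈ Iio ω₁, B a := by
  obtain ⟨F, hF, hFA⟩ := analytic_eq_suslin hA
  refine ⟨fun a => lev F a [], fun a ha => lev_measurable (fun s => (hF s).measurableSet) a ha _,
    fun a b hab => lev_mono hab _, ?_⟩
  rw [← compl_suslin, hFA, compl_compl]

/-- the same with an index type of cardinality `ℵ₁` -/
theorem coanalytic_iUnion' [TopologicalSpace X] [T3Space X] [MeasurableSpace X] [BorelSpace X]
    {A : Set X} (hA : AnalyticSet Aᶜ) :
    ∃ (ι : Type) (B : ι → Set X), #ι = ℵ₁ ∧ (∀ i, MeasurableSet (B i)) ∧ A = ⋃ i, B i := by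
  obtain ⟨B, hB, -, hA2⟩ := coanalytic_iUnion hA
  refine ⟨(ω₁ : Ordinal.{0}).ToType, fun i => B (i : Ordinal), ?_, fun i => hB _ ?_, ?_⟩
  · rw [Cardinal.mk_toType, Ordinal.card_omega]
  · exact (Ordinal.ToType.toOrd i).2
  · rw [hA2]
    ext x
    simp only [mem_iUnion, mem_Iio, exists_prop]
    constructor
    · rintro ⟨a, ha, hx⟩
      exact ⟨Ordinal.ToType.mk ⟨a, ha⟩, by simpa using hx⟩
    · rintro ⟨i, hx⟩
      exact ⟨_, (Ordinal.ToType.toOrd i).2, hx⟩

end Pool.Agent.Helper26.GP
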